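import Pool.Agent.W787.QC.Defs

/-! Project QC, the two-bubble profile. -/

open MeasureTheory Set Metric Filter Topology Real
open scoped ContDiff

namespace Pool.Agent.W816.QC

open Pool.Agent.W787.QC

theorem exp_four_log {a : ℝ} (ha : 0 < a) : Real.exp (4 * Real.log a) = a ^ 4 := by
  have h := Real.exp_nat_mul (Real.log a) 4
  rw [Real.exp_log ha] at h
  rw [← h]
  norm_num

theorem smooth_log (s : ℝ) (hs : 0 < s) (p : E) :
    ContDiff ℝ ∞ (fun y : E => Real.log (s ^ 2 + ‖y - p‖ ^ 2)) := by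
  refine ContDiff.log ?_ fun y => ?_
  · exact contDiff_const.add ((contDiff_id.sub contDiff_const).norm_sq ℝ)
  · positivity

theorem smooth_quad (c : ℝ) : ContDiff ℝ ∞ (fun y : E => ((y 0) ^ 2 - 1) / 2 + c) := by
  fun_prop

theorem w_prof (h1 : S_BL) (h2 : S_LOG) : S_W := by
  intro s hs
  obtain ⟨-, -, -, hadd, hsmul⟩ := h1
  obtain ⟨hlog, hquad⟩ := h2
  have s1 := smooth_log s hs e0
  have s2 := smooth_log s hs (-e0)
  have s3 := smooth_quad (Real.log (8 * s))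
  have s1' : ContDiff ℝ ∞ (fun y : E => (-1 : ℝ) * Real.log (s ^ 2 + ‖y - e0‖ ^ 2)) :=
    contDiff_const.mul s1
  have s2' : ContDiff ℝ ∞ (fun y : E => (-1 : ℝ) * Real.log (s ^ 2 + ‖y - -e0‖ ^ 2)) :=
    contDiff_const.mul s2
  have s12 : ContDiff ℝ ∞ (fun y : E => (-1 : ℝ) * Real.log (s ^ 2 + ‖y - e0‖ ^ 2) +
      (-1 : ℝ) * Real.log (s ^ 2 + ‖y - -e0‖ ^ 2)) := s1'.add s2'
  have hW : W s = fun y : E => (((y 0) ^ 2 - 1) / 2 + Real.log (8 * s)) +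
      ((-1 : ℝ) * Real.log (s ^ 2 + ‖y - e0‖ ^ 2) +
        (-1 : ℝ) * Real.log (s ^ 2 + ‖y - -e0‖ ^ 2)) := by
    funext y
    unfold W
    rw [sub_neg_eq_add]
    ring
  refine ⟨by rw [hW]; exact s3.add s12, fun x => ?_⟩
  have hbil : bil (W s) x = 96 * s ^ 4 / (s ^ 2 + ‖x - e0‖ ^ 2) ^ 4 +
      96 * s ^ 4 / (s ^ 2 + ‖x + e0‖ ^ 2) ^ 4 := by
    rw [hW, hadd _ _ s3 s12, hadd _ _ s1' s2', hsmul _ _ s1, hsmul _ _ s2, hquad,
      hlog s e0 hs.ne', hlog s (-e0) hs.ne', sub_neg_eq_add]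
    ring
  obtain ⟨A, hA⟩ : ∃ A, A = s ^ 2 + ‖x - e0‖ ^ 2 := ⟨_, rfl⟩
  obtain ⟨B, hB⟩ : ∃ B, B = s ^ 2 + ‖x + e0‖ ^ 2 := ⟨_, rfl⟩
  have hA0 : 0 < A := by rw [hA]; positivity
  have hB0 : 0 < B := by rw [hB]; positivity
  have hexp : Real.exp (4 * W s x) =
      (8 * s) ^ 4 / A ^ 4 / B ^ 4 * Real.exp (2 * ((x 0) ^ 2 - 1)) := by
    have e1 : 4 * W s x = 4 * Real.log (8 * s) - 4 * Real.log A - 4 * Real.log B +
        2 * ((x 0) ^ 2 - 1) := by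
      unfold W
      rw [← hA, ← hB]
      ring
    rw [e1, Real.exp_add, Real.exp_sub, Real.exp_sub, exp_four_log (by positivity),
      exp_four_log hA0, exp_four_log hB0]
  have hneg : Real.exp (-2 * ((x 0) ^ 2 - 1)) = (Real.exp (2 * ((x 0) ^ 2 - 1)))⁻¹ := by
    rw [← Real.exp_neg]
    congr 1
    ring
  have hpos := Real.exp_pos (2 * ((x 0) ^ 2 - 1))
  refine ⟨?_, hbil, ?_⟩
  · rw [hbil, hexp]
    unfold q
    rw [← hA, ← hB, hneg]
    field_simp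
    ring
  · have e2 : -4 * W s x = -(4 * W s x) := by ring
    rw [e2, Real.exp_neg, hexp]
    unfold m
    rw [← hA, ← hB, hneg]
    field_simp
    ring

end Pool.Agent.W816.QC
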